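import Pool.Agent.W500.CS.Stm

/-!
# Project CQ (MP_46692b_an): generic germs in a strip
-/

set_option autoImplicit false

open MeasureTheory Polynomial Metric Set Filter Topology
open scoped ComplexConjugate

namespace Pool.Agent.W32.CQ.GenG

open Pool.Agent.W500.CS

theorem gm_deriv (κ φ₀ q φ : ℝ) :
    HasDerivAt (fun x : ℝ => Gm κ φ₀ q x) (((κ : ℂ) + Complex.I) * Gm κ φ₀ q φ) φ := by
  unfold Gm
  have h0 : HasDerivAt (fun x : ℝ => (x : ℂ)) 1 φ := Complex.ofRealCLM.hasDerivAt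
  have h1 : HasDerivAt (fun x : ℝ => (κ : ℂ) * ((x : ℂ) - φ₀) + Complex.I * x)
      ((κ : ℂ) * 1 + Complex.I * 1) φ :=
    ((h0.sub_const _).const_mul _).add (h0.const_mul _)
  have h2 := (h1.cexp).const_mul (q : ℂ)
  refine h2.congr_deriv ?_
  ring

theorem main : S_GENG := by
  intro r R κ φ₀ δ ε B h hR hδ hε hB hh0 hhd hdom hne Φ p η hΦ hΦ0 hη
  set ρ : ℝ := (δ - |Φ 0 - φ₀|) / 2 with hρ
  have hρ0 : 0 < ρ := by rw [hρ]; linarith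
  set M : ℝ := min η ρ with hM
  have hM0 : 0 < M := lt_min hη hρ0
  -- small parameters
  have hsm : ∀ᶠ q in 𝓝[>] (0 : ℝ), 0 < q ∧ q < ε ∧ q < 1 ∧ |Φ q - Φ 0| < ρ := by
    have h1 : ∀ᶠ q in 𝓝[>] (0 : ℝ), 0 < q := self_mem_nhdsWithin
    have h2 : ∀ᶠ q in 𝓝 (0 : ℝ), q < ε := gt_mem_nhds hε
    have h3 : ∀ᶠ q in 𝓝 (0 : ℝ), q < 1 := gt_mem_nhds one_pos
    have h4 : ∀ᶠ q in 𝓝 (0 : ℝ), |Φ q - Φ 0| < ρ := by
      have := Metric.tendsto_nhds.1 hΦ.continuousAt.tendsto ρ hρ0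
      filter_upwards [this] with q hq
      rwa [Real.dist_eq] at hq
    filter_upwards [h1, nhdsWithin_le_nhds h2, nhdsWithin_le_nhds h3, nhdsWithin_le_nhds h4]
      with q a b c d using ⟨a, b, c, d⟩
  have hin : ∀ q c : ℝ, 0 < q → q < 1 → |Φ q - Φ 0| < ρ → |c| < M →
      Φ q + c * q ^ p ∈ Ioo (φ₀ - δ) (φ₀ + δ) := by
    intro q c hq0 hq1 hq hc
    have h1 : |c * q ^ p| ≤ |c| := by
      rw [abs_mul]
      refine mul_le_of_le_one_right (abs_nonneg _) ?_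
      rw [abs_of_nonneg (by positivity)]
      exact pow_le_one₀ hq0.le hq1.le
    have h2 : |c| < ρ := lt_of_lt_of_le hc (min_le_right _ _)
    have h3 : |Φ q + c * q ^ p - φ₀| < δ := by
      have e : Φ q + c * q ^ p - φ₀ = (Φ q - Φ 0) + (Φ 0 - φ₀) + c * q ^ p := by ring
      rw [e]
      have h4 := abs_add_three (Φ q - Φ 0) (Φ 0 - φ₀) (c * q ^ p)
      linarith
    rw [abs_lt] at h3
    constructor <;> linarith [h3.1, h3.2]
  -- every pair excludes at most one value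
  have key : ∀ i j : Fin r, i ≠ j → ∀ c c' : ℝ, |c| < M → |c'| < M → c < c' →
      (∀ᶠ q in 𝓝[>] (0 : ℝ), (h i (Gm κ φ₀ q (Φ q + c * q ^ p))).re =
        (h j (Gm κ φ₀ q (Φ q + c * q ^ p))).re) →
      (∀ᶠ q in 𝓝[>] (0 : ℝ), (h i (Gm κ φ₀ q (Φ q + c' * q ^ p))).re =
        (h j (Gm κ φ₀ q (Φ q + c' * q ^ p))).re) → False := by
    intro i j hij c c' hc hc' hcc h1 h2
    obtain ⟨q, ⟨hq0, hqε, hq1, hq⟩, e1, e2⟩ := (hsm.and (h1.and h2)).exists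
    set φ1 := Φ q + c * q ^ p with hφ1
    set φ2 := Φ q + c' * q ^ p with hφ2
    have hqp : 0 < q ^ p := pow_pos hq0 p
    have hlt : φ1 < φ2 := by
      have := mul_lt_mul_of_pos_right hcc hqp
      rw [hφ1, hφ2]; linarith
    have m1 := hin q c hq0 hq1 hq hc
    have m2 := hin q c' hq0 hq1 hq hc'
    have hd : ∀ k : Fin r, ∀ φ ∈ Icc (φ₀ - δ) (φ₀ + δ),
        HasDerivAt (fun x : ℝ => (h k (Gm κ φ₀ q x)).re)
          (B k (Gm κ φ₀ q φ) * (((κ : ℂ) + Complex.I) * Gm κ φ₀ q φ)).re φ := by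
      intro k φ hφ
      have hb := (hdom q ⟨hq0, hqε⟩ φ hφ).1
      have hc1 : HasDerivAt (fun x : ℝ => h k (Gm κ φ₀ q x))
          (B k (Gm κ φ₀ q φ) * (((κ : ℂ) + Complex.I) * Gm κ φ₀ q φ)) φ :=
        HasDerivAt.comp φ (hhd k _ hb) (gm_deriv κ φ₀ q φ)
      exact Complex.reCLM.hasFDerivAt.comp_hasDerivAt φ hc1
    have hicc : ∀ φ ∈ Icc φ1 φ2, φ ∈ Icc (φ₀ - δ) (φ₀ + δ) := fun φ hφ =>
      ⟨m1.1.le.trans hφ.1, hφ.2.trans m2.2.le⟩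
    have hE : ∀ φ ∈ Icc φ1 φ2, HasDerivAt (fun x : ℝ => (h i (Gm κ φ₀ q x)).re -
        (h j (Gm κ φ₀ q x)).re)
        ((B i (Gm κ φ₀ q φ) * (((κ : ℂ) + Complex.I) * Gm κ φ₀ q φ)).re -
          (B j (Gm κ φ₀ q φ) * (((κ : ℂ) + Complex.I) * Gm κ φ₀ q φ)).re) φ := fun φ hφ =>
      (hd i φ (hicc φ hφ)).sub (hd j φ (hicc φ hφ))
    obtain ⟨φ, hφ, h0⟩ := exists_hasDerivAt_eq_zero (f := fun x : ℝ => (h i (Gm κ φ₀ q x)).re -
        (h j (Gm κ φ₀ q x)).re) (f' := fun φ =>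
        ((B i (Gm κ φ₀ q φ) * (((κ : ℂ) + Complex.I) * Gm κ φ₀ q φ)).re -
          (B j (Gm κ φ₀ q φ) * (((κ : ℂ) + Complex.I) * Gm κ φ₀ q φ)).re)) hlt
      (fun φ hφ => (hE φ hφ).continuousAt.continuousWithinAt)
      (by rw [e1, e2, sub_self, sub_self])
      (fun φ hφ => hE φ (Ioo_subset_Icc_self hφ))
    exact hne i j hij q ⟨hq0, hqε⟩ φ (hicc φ (Ioo_subset_Icc_self hφ)) (sub_eq_zero.1 h0)
  -- choose a value
  set T : Set ℝ := ⋃ x : Fin r × Fin r, {c | |c| < M ∧ x.1 ≠ x.2 ∧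
      ∀ᶠ q in 𝓝[>] (0 : ℝ), (h x.1 (Gm κ φ₀ q (Φ q + c * q ^ p))).re =
        (h x.2 (Gm κ φ₀ q (Φ q + c * q ^ p))).re} with hT
  have hTf : T.Finite := by
    refine Set.finite_iUnion fun x => Set.Subsingleton.finite ?_
    rintro c ⟨hc, hx, hc1⟩ c' ⟨hc', -, hc2⟩
    rcases lt_trichotomy c c' with hlt | heq | hgt
    · exact (key _ _ hx c c' hc hc' hlt hc1 hc2).elim
    · exact heq
    · exact (key _ _ hx c' c hc' hc hgt hc2 hc1).elim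
  have hinf : (Ioo (-M) M).Infinite := Set.Ioo_infinite (by linarith)
  obtain ⟨c, hc, hcT⟩ := hinf.exists_notMem_finite hTf
  have hcM : |c| < M := abs_lt.2 hc
  refine ⟨c, lt_of_lt_of_le hcM (min_le_left _ _), fun i j hij hbad => hcT ?_⟩
  exact Set.mem_iUnion.2 ⟨(i, j), hcM, hij, hbad⟩

end Pool.Agent.W32.CQ.GenG
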